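import Pool.Agent.L0h18.HZ.Defs

/-!
# The covering by a rational polyhedral cone (module COV of helper18)
-/

set_option autoImplicit false

namespace Pool.Agent.L0h78.HZ

open Pool.Agent.Y167 (Sys cone)
open Pool.Agent.L0h18.HZ
open Pool.Agent.N165.KM (IntL)

theorem t_COV : S_COV := by
  classical
  intro A _ _ r ρ S Φ hH 𝒢 h𝒢
  obtain ⟨F₀, hF₀, hF₀p, hcov⟩ := Sys.reduction S hH.pos
  obtain ⟨F, hF, hFu, hidx⟩ := h𝒢.idx
  obtain ⟨M, hM, hlat⟩ := hH.lat
  have hex : ∀ w z : A, ∃ x : Fin ρ → ℝ, (w ∈ F → z ∈ F₀ → Φ x = S.st w * z * w) := by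
    intro w z
    by_cases h : w ∈ F ∧ z ∈ F₀
    · have h1 := ((hF₀p z h.2).1.conj w).sa
      obtain ⟨x, hx⟩ := (hH.range _).1 h1
      exact ⟨x, fun _ _ => hx⟩
    · exact ⟨0, fun h1 h2 => absurd ⟨h1, h2⟩ h⟩
  choose g hg using hex
  have hM' : (M : ℝ) ≠ 0 := by exact_mod_cast hM.ne'
  refine ⟨(hF.toFinset ×ˢ hF₀.toFinset).image (fun p => (M : ℝ) • g p.1 p.2), ?_, ?_⟩
  · intro v hv
    rw [Finset.mem_image] at hv
    obtain ⟨⟨w, z⟩, hp, rfl⟩ := hv
    rw [Finset.mem_product, Set.Finite.mem_toFinset, Set.Finite.mem_toFinset] at hp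
    obtain ⟨hw, hz⟩ := hp
    have e := hg w z hw hz
    refine ⟨hlat _ ?_, ?_⟩
    · rw [e]
      exact (hF₀p z hz).2.conj (hFu w hw).1
    · show S.Psd (Φ ((M : ℝ) • g w z))
      rw [map_smul, e]
      exact ((hF₀p z hz).1.conj w).smul (Nat.cast_nonneg _)
  · intro x hx
    obtain ⟨u, hu, v, hv, huv, hvu, m, z, c, hz, hc, hxe⟩ := hcov (Φ x) hx
    obtain ⟨w, hw, T, hT, hA⟩ := hidx v ⟨hv, u, hu, hvu, huv⟩
    refine ⟨T, hT, ?_⟩
    have h1 : Φ (T x) = ∑ i, c i • (S.st w * z i * w) := by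
      have h2 : S.st v * S.st u = 1 := by rw [← S.st_mul, huv, S.st_one]
      rw [hA x, hxe, S.st_mul]
      calc S.st w * S.st v * (S.st u * (∑ i, c i • z i) * u) * (v * w)
          = S.st w * (S.st v * S.st u) * (∑ i, c i • z i) * (u * v) * w := by
            simp only [mul_assoc]
        _ = S.st w * (∑ i, c i • z i) * w := by rw [h2, huv, mul_one, mul_one]
        _ = ∑ i, c i • (S.st w * z i * w) := by
            rw [Finset.mul_sum, Finset.sum_mul]
            exact Finset.sum_congr rfl fun i _ => by rw [mul_smul_comm, smul_mul_assoc]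
    have h3 : T x = ∑ i, (c i / M) • ((M : ℝ) • g w (z i)) := by
      apply hH.inj
      rw [h1, map_sum]
      refine Finset.sum_congr rfl fun i _ => ?_
      rw [map_smul, map_smul, hg w (z i) hw (hz i), smul_smul, div_mul_cancel₀ _ hM']
    rw [h3]
    refine Pool.Agent.Y167.cone_sum _ _ fun i _ => ?_
    refine Pool.Agent.Y167.cone_smul (Pool.Agent.Y167.mem_cone_self ?_)
      (div_nonneg (hc i) (Nat.cast_nonneg _))
    rw [Finset.mem_image]
    refine ⟨(w, z i), ?_, rfl⟩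
    rw [Finset.mem_product, Set.Finite.mem_toFinset, Set.Finite.mem_toFinset]
    exact ⟨hw, hz i⟩

end Pool.Agent.L0h78.HZ
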