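import Pool.Agent.L0h18.HZ.Defs

/-!
# Inverses of elements of the order (module INV of helper18)
-/

set_option autoImplicit false

namespace Pool.Agent.L0h78.HZ

open Pool.Agent.Y167 (Sys cone)
open Pool.Agent.L0h18.HZ
open Polynomial

section

variable {A : Type} [Ring A] [Algebra ℝ A] {r : ℕ}

theorem int_of_R (S : Sys A r) {u : A} (hu : u ∈ S.R) : IsIntegral ℤ u := by
  refine IsIntegral.of_mem_of_fg (subalgebraOfSubring S.R) ?_ u hu
  have h : Subalgebra.toSubmodule (subalgebraOfSubring S.R) =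
      Submodule.span ℤ (Set.range S.bas) := by
    apply le_antisymm
    · intro x hx
      have hx' : x ∈ S.R := hx
      rw [S.mem_R] at hx'
      choose n hn using hx'
      rw [← S.bas.sum_repr x]
      refine Submodule.sum_mem _ fun i _ => ?_
      rw [hn i, Int.cast_smul_eq_zsmul]
      exact Submodule.smul_mem _ _ (Submodule.subset_span ⟨i, rfl⟩)
    · rw [Submodule.span_le]
      rintro _ ⟨i, rfl⟩
      exact S.bas_mem i
  rw [h]
  exact Submodule.fg_span (Set.finite_range _)

theorem aeval_R (S : Sys A r) {u : A} (hu : u ∈ S.R) (p : ℤ[X]) : aeval u p ∈ S.R := by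
  have h : aeval u p ∈ subalgebraOfSubring S.R := by
    have h1 : aeval u p ∈ Algebra.adjoin ℤ {u} := aeval_mem_adjoin_singleton ℤ u
    have h2 : Algebra.adjoin ℤ {u} ≤ subalgebraOfSubring S.R := by
      apply Algebra.adjoin_le
      rintro x hx
      rw [Set.mem_singleton_iff] at hx
      rw [hx]
      exact hu
    exact h2 h1
  exact h

end

theorem t_INV : S_INV := by
  intro A _ _ r S u hu hun
  obtain ⟨p, hp, hpu⟩ := int_of_R S hu
  obtain ⟨k, q, hq, hpq⟩ : ∃ (k : ℕ) (q : ℤ[X]), q.coeff 0 ≠ 0 ∧ p = X ^ k * q := by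
    obtain ⟨q, hq1, hq2⟩ := Polynomial.exists_eq_pow_rootMultiplicity_mul_and_not_dvd p hp.ne_zero 0
    refine ⟨rootMultiplicity 0 p, q, ?_, ?_⟩
    · intro h
      apply hq2
      rw [C_0, sub_zero, X_dvd_iff]
      exact h
    · rw [C_0, sub_zero] at hq1
      exact hq1
  have h0 : aeval u q = 0 := by
    have h1 : aeval u p = 0 := hpu
    rw [hpq, map_mul, map_pow, aeval_X] at h1
    exact (hun.pow k).mul_right_eq_zero.1 h1
  have h2 : aeval u (divX q) * u + (q.coeff 0 : A) = 0 := by
    have h3 := congrArg (aeval u) (divX_mul_X_add q)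
    rw [h0, map_add, map_mul, aeval_X, aeval_C] at h3
    simpa using h3
  have h3 : u * aeval u (divX q) = aeval u (divX q) * u := by
    have h4 := congrArg (aeval u) (mul_comm X (divX q))
    rwa [map_mul, map_mul, aeval_X] at h4
  refine ⟨-q.coeff 0, neg_ne_zero.2 hq, aeval u (divX q), aeval_R S hu _, ?_, ?_⟩
  · rw [h3, Int.cast_neg]
    exact eq_neg_of_add_eq_zero_left h2
  · rw [Int.cast_neg]
    exact eq_neg_of_add_eq_zero_left h2

end Pool.Agent.L0h78.HZ
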