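import Pool.Agent.L0h18.HZ.Defs

/-!
# Elements with square zero (module NIL of helper18)
-/

set_option autoImplicit false

namespace Pool.Agent.L0h78.HZ

open Pool.Agent.Y167 (Sys cone)
open Pool.Agent.L0h18.HZ
open Filter Topology

section

variable {A : Type} [Ring A] [Algebra ℝ A] {r ρ : ℕ} {S : Sys A r} {Φ : (Fin ρ → ℝ) →ₗ[ℝ] A}

theorem acts_mul {T T' : (Fin ρ → ℝ) ≃ₗ[ℝ] (Fin ρ → ℝ)} {u u' : A} (h : Acts S Φ T u)
    (h' : Acts S Φ T' u') : Acts S Φ (T * T') (u' * u) := by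
  intro x
  have e : (T * T') x = T (T' x) := rfl
  rw [e, h, h', S.st_mul]
  simp only [mul_assoc]

theorem acts_inv {T : (Fin ρ → ℝ) ≃ₗ[ℝ] (Fin ρ → ℝ)} {u v : A}
    (h : Acts S Φ T u) (huv : u * v = 1) : Acts S Φ T⁻¹ v := by
  intro x
  have e : T (T⁻¹ x) = x := T.apply_symm_apply x
  have h1 := h (T⁻¹ x)
  rw [e] at h1
  have h2 : S.st v * S.st u = 1 := by rw [← S.st_mul, huv, S.st_one]
  calc Φ (T⁻¹ x) = (S.st v * S.st u) * Φ (T⁻¹ x) * (u * v) := by rw [h2, huv, one_mul, mul_one]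
    _ = S.st v * (S.st u * Φ (T⁻¹ x) * u) * v := by simp only [mul_assoc]
    _ = S.st v * Φ x * v := by rw [← h1]

theorem acts_one : Acts S Φ 1 1 := by
  intro x
  rw [S.st_one, one_mul, mul_one]
  rfl

theorem sq_mul {y : A} (hy : y * y = 0) (a b : ℝ) :
    (1 + a • y) * (1 + b • y) = 1 + (a + b) • y := by
  have h : a • y * b • y = 0 := by rw [smul_mul_smul_comm, hy, smul_zero]
  rw [add_mul, mul_add, mul_add, h, one_mul, mul_one, one_mul, add_smul, add_zero]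
  abel

theorem acts_pow {T : (Fin ρ → ℝ) ≃ₗ[ℝ] (Fin ρ → ℝ)} {y : A} (hy : y * y = 0) {m : ℝ}
    (h : Acts S Φ T (1 + m • y)) (k : ℕ) : Acts S Φ (T ^ k) (1 + ((k : ℝ) * m) • y) := by
  induction k with
  | zero => simpa using (acts_one (S := S) (Φ := Φ))
  | succ k ih =>
    have h1 := acts_mul ih h
    rw [sq_mul hy, ← pow_succ] at h1
    have e : m + (k : ℝ) * m = ((k + 1 : ℕ) : ℝ) * m := by push_cast; ring
    rwa [e] at h1

theorem unit_R {y : A} (hyR : y ∈ S.R) (hy : y * y = 0) (j : ℤ) : IsUnitR S (1 + (j : ℝ) • y) := by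
  have hm : ∀ i : ℤ, 1 + (i : ℝ) • y ∈ S.R := by
    intro i
    rw [Int.cast_smul_eq_zsmul]
    exact S.R.add_mem S.R.one_mem (S.R.zsmul_mem hyR i)
  refine ⟨hm j, 1 + ((-j : ℤ) : ℝ) • y, hm (-j), ?_, ?_⟩
  · rw [sq_mul hy]
    push_cast
    simp
  · rw [sq_mul hy]
    push_cast
    simp

end

theorem t_NIL : S_NIL := by
  intro A _ _ r ρ S Φ hH 𝒢 h𝒢 D hD hst y hyR hy x hx x' hx'
  obtain ⟨F, hF, hFu, hidx⟩ := h𝒢.idx
  -- pigeonhole
  choose! w hw T hT hA using fun j : ℕ => hidx (1 + ((j : ℤ) : ℝ) • y) (unit_R hyR hy j)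
  have hfin : Finite F := hF
  obtain ⟨j, j', hjj, hww⟩ := Finite.exists_ne_map_eq_of_infinite (fun j : ℕ => (⟨w j, hw j⟩ : F))
  have hww' : w j = w j' := congrArg Subtype.val hww
  obtain ⟨-, v, -, hwv, hvw⟩ := hFu _ (hw j')
  have hTi : Acts S Φ (T j')⁻¹ (v * (1 + ((-(j' : ℤ) : ℤ) : ℝ) • y)) := by
    apply acts_inv (hA j')
    have e : (1 + ((j' : ℤ) : ℝ) • y) * (1 + ((-(j' : ℤ) : ℤ) : ℝ) • y) = 1 := by
      rw [sq_mul hy]
      push_cast
      simp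
    calc (1 + ((j' : ℤ) : ℝ) • y) * w j' * (v * (1 + ((-(j' : ℤ) : ℤ) : ℝ) • y))
        = (1 + ((j' : ℤ) : ℝ) • y) * (w j' * v) * (1 + ((-(j' : ℤ) : ℤ) : ℝ) • y) := by
          simp only [mul_assoc]
      _ = 1 := by rw [hwv, mul_one, e]
  have hTT : Acts S Φ ((T j')⁻¹ * T j) (1 + ((j : ℝ) - j') • y) := by
    have h1 := acts_mul hTi (hA j)
    have e : (1 + ((j : ℤ) : ℝ) • y) * w j * (v * (1 + ((-(j' : ℤ) : ℤ) : ℝ) • y)) =
        1 + ((j : ℝ) - j') • y := by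
      calc (1 + ((j : ℤ) : ℝ) • y) * w j * (v * (1 + ((-(j' : ℤ) : ℤ) : ℝ) • y))
          = (1 + ((j : ℤ) : ℝ) • y) * (w j' * v) * (1 + ((-(j' : ℤ) : ℤ) : ℝ) • y) := by
            rw [hww']
            simp only [mul_assoc]
        _ = 1 + ((j : ℝ) - j') • y := by
            rw [hwv, mul_one, sq_mul hy]
            push_cast
            congr 2
            
    rwa [e] at h1
  set m : ℝ := (j : ℝ) - j' with hm
  have hm0 : m ≠ 0 := by
    rw [hm, sub_ne_zero]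
    exact_mod_cast hjj
  set U := (T j')⁻¹ * T j with hU
  have hU𝒢 : U ∈ 𝒢 := h𝒢.mul _ (h𝒢.inv _ (hT j')) _ (hT j)
  have hpow : ∀ k : ℕ, (U ^ k) x ∈ D := by
    intro k
    induction k with
    | zero => simpa using hx
    | succ k ih =>
      rw [pow_succ']
      exact hst U hU𝒢 _ ih
  -- the linear term
  have hsa : S.st (Φ x) = Φ x := (hH.range _).2 ⟨x, rfl⟩
  obtain ⟨x₁, hx₁⟩ := (hH.range (S.st y * Φ x + Φ x * y)).1 (by
    rw [map_add, S.st_mul, S.st_mul, S.st_st, hsa, add_comm])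
  have hform : ∀ k : ℕ, (U ^ k) x = x + ((k : ℝ) * m) • x₁ + ((k : ℝ) * m) ^ 2 • x' := by
    intro k
    apply hH.inj
    have eR : Φ (x + ((k : ℝ) * m) • x₁ + ((k : ℝ) * m) ^ 2 • x') =
        Φ x + ((k : ℝ) * m) • Φ x₁ + ((k : ℝ) * m) ^ 2 • Φ x' := by
      simp only [map_add, map_smul]
    have eL : S.st (1 + ((k : ℝ) * m) • y) = 1 + ((k : ℝ) * m) • S.st y := by
      rw [map_add, map_smul, S.st_one]
    rw [acts_pow hy hTT k x, eR, eL, hx₁, hx']
    generalize (k : ℝ) * m = t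
    simp only [add_mul, mul_add, one_mul, mul_one, smul_mul_assoc, mul_smul_comm, smul_add,
      smul_smul, sq]
    abel
  have hlim : Tendsto (fun k : ℕ => (1 / ((k : ℝ) * m) ^ 2) • (U ^ k) x) atTop (𝓝 x') := by
    have h1 : Tendsto (fun k : ℕ => 1 / ((k : ℝ) * m)) atTop (𝓝 0) := by
      have h2 : Tendsto (fun k : ℕ => (1 / (k : ℝ)) * (1 / m)) atTop (𝓝 (0 * (1 / m))) :=
        tendsto_one_div_atTop_nhds_zero_nat.mul_const _
      rw [zero_mul] at h2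
      refine h2.congr fun k => ?_
      rw [one_div_mul_one_div]
    have h3 : Tendsto (fun k : ℕ => (1 / ((k : ℝ) * m)) ^ 2 • x + (1 / ((k : ℝ) * m)) • x₁ + x')
        atTop (𝓝 ((0 : ℝ) ^ 2 • x + (0 : ℝ) • x₁ + x')) :=
      (((h1.pow 2).smul_const x).add (h1.smul_const x₁)).add_const x'
    have e0 : (0 : ℝ) ^ 2 • x + (0 : ℝ) • x₁ + x' = x' := by simp
    rw [e0] at h3
    refine h3.congr' ?_
    filter_upwards [eventually_gt_atTop 0] with k hk
    have hk0 : (k : ℝ) * m ≠ 0 := mul_ne_zero (by exact_mod_cast hk.ne') hm0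
    rw [hform k]
    generalize (k : ℝ) * m = t at hk0 ⊢
    rw [smul_add, smul_add, smul_smul, smul_smul]
    have e1 : 1 / t ^ 2 * t = 1 / t := by field_simp
    have e2 : 1 / t ^ 2 * t ^ 2 = 1 := by field_simp
    rw [e1, e2, one_smul, one_div_pow]
  refine hD.closed.mem_of_tendsto hlim (Eventually.of_forall fun k => ?_)
  exact hD.smul _ (by positivity) _ (hpow k)

end Pool.Agent.L0h78.HZ
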